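import Mathlib

set_option autoImplicit false

namespace Pool.Agent.P.MP_926215_co

open Finset

/-- every integer vector with even coordinate sum is at squared distance at least `c` from `x` -/
def Far (x : Fin 8 → ℝ) (c : ℝ) : Prop :=
  ∀ n : Fin 8 → ℤ, Even (∑ i, n i) → c ≤ ∑ i, (x i - n i) ^ 2

/-- distance to the nearest integer -/
noncomputable def gg (t : ℝ) : ℝ := |t - round t|

lemma gg_le (t : ℝ) : gg t ≤ 1 / 2 := abs_sub_round t

lemma gg_nonneg (t : ℝ) : 0 ≤ gg t := abs_nonneg _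

lemma gg_sq (t : ℝ) : gg t ^ 2 = (t - round t) ^ 2 := sq_abs _

lemma far1 {x : Fin 8 → ℝ} {c : ℝ} (h : Far x c) (j : Fin 8) :
    c ≤ ∑ i, gg (x i) ^ 2 + (1 - 2 * gg (x j)) := by
  by_cases he : Even (∑ i, round (x i))
  · have h1 := h _ he
    have h2 := gg_le (x j)
    simp only [gg_sq]
    linarith
  · have ho : Odd (∑ i, round (x i)) := Int.not_even_iff_odd.mp he
    obtain ⟨σ, hσ, hs⟩ : ∃ σ : ℤ, Odd σ ∧
        (x j - ((round (x j) + σ : ℤ) : ℝ)) ^ 2 = gg (x j) ^ 2 + (1 - 2 * gg (x j)) := by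
      rcases le_total 0 (x j - round (x j)) with h0 | h0
      · refine ⟨1, odd_one, ?_⟩
        unfold gg
        rw [abs_of_nonneg h0]; push_cast; ring
      · refine ⟨-1, odd_one.neg, ?_⟩
        unfold gg
        rw [abs_of_nonpos h0]; push_cast; ring
    have h1 := h (fun i => round (x i) + if i = j then σ else 0) (by
      rw [Finset.sum_add_distrib, Finset.sum_ite_eq']
      simpa using ho.add_odd hσ)
    have h2 : ∀ i, (x i - ((round (x i) + (if i = j then σ else 0) : ℤ) : ℝ)) ^ 2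
        = gg (x i) ^ 2 + (if i = j then (1 - 2 * gg (x j)) else 0) := by
      intro i
      by_cases hij : i = j
      · subst hij
        simpa using hs
      · simp [hij, gg_sq]
    simp only [h2] at h1
    rw [Finset.sum_add_distrib, Finset.sum_ite_eq'] at h1
    simpa using h1

lemma far2 {x : Fin 8 → ℝ} {c : ℝ} (h : Far x c) :
    ∃ M : ℝ, 0 ≤ M ∧ M ≤ 1 / 2 ∧ (∀ i, gg (x i) ≤ M) ∧ c - 1 ≤ M * (∑ i, gg (x i) - 2) := by
  obtain ⟨j, hj⟩ := Finite.exists_max (fun i => gg (x i))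
  refine ⟨gg (x j), gg_nonneg _, gg_le _, hj, ?_⟩
  have h1 := far1 h j
  have h2 : ∑ i, gg (x i) ^ 2 ≤ gg (x j) * ∑ i, gg (x i) := by
    rw [Finset.mul_sum]
    refine Finset.sum_le_sum fun i _ => ?_
    have := hj i
    have := gg_nonneg (x i)
    nlinarith
  nlinarith

lemma far3 {x : Fin 8 → ℝ} {c : ℝ} (h : Far x c) (hc : 1 < c) : 2 * c ≤ ∑ i, gg (x i) := by
  obtain ⟨M, h0, h1, -, h3⟩ := far2 h
  have h4 : 0 < ∑ i, gg (x i) - 2 := by
    by_contra h5
    have h5 := not_lt.mp h5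
    nlinarith [mul_nonneg h0 (neg_nonneg.mpr h5)]
  nlinarith

lemma gg_tri (s t : ℝ) : gg s + gg t + gg (s + t) ≤ 1 := by
  have ha := abs_le.mp (abs_sub_round s)
  have hb := abs_le.mp (abs_sub_round t)
  have k0 := round_le (s + t) (round s + round t)
  have k1 := round_le (s + t) (round s + round t + 1)
  have k2 := round_le (s + t) (round s + round t - 1)
  push_cast at k0 k1 k2
  unfold gg
  rcases le_total 0 (s - round s) with h1 | h1 <;> rcases le_total 0 (t - round t) with h2 | h2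
  · rw [abs_of_nonneg h1, abs_of_nonneg h2]
    rw [abs_of_nonpos (a := s + t - (round s + round t + 1)) (by linarith)] at k1
    linarith
  · rw [abs_of_nonneg h1, abs_of_nonpos h2]
    have : |s + t - ((round s : ℝ) + round t)| ≤ 1 - (s - round s) + (t - round t) :=
      abs_le.mpr ⟨by linarith, by linarith⟩
    linarith
  · rw [abs_of_nonpos h1, abs_of_nonneg h2]
    have : |s + t - ((round s : ℝ) + round t)| ≤ 1 + (s - round s) - (t - round t) :=
      abs_le.mpr ⟨by linarith, by linarith⟩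
    linarith
  · rw [abs_of_nonpos h1, abs_of_nonpos h2]
    rw [abs_of_nonneg (a := s + t - (round s + round t - 1)) (by linarith)] at k2
    linarith

lemma sum_tri (x z : Fin 8 → ℝ) :
    ∑ i, gg (x i) + ∑ i, gg (z i) + ∑ i, gg (x i + z i) ≤ 8 := by
  rw [← Finset.sum_add_distrib, ← Finset.sum_add_distrib]
  calc _ ≤ ∑ _i : Fin 8, (1 : ℝ) := Finset.sum_le_sum fun i _ => gg_tri _ _
    _ = 8 := by simp

lemma three {x z : Fin 8 → ℝ} {a b : ℝ} (ha : 0 ≤ a) (hb : 0 ≤ b) (hx : Far x (2 - a ^ 2))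
    (hz : Far z (2 - b ^ 2)) (hw : Far (fun i => x i + z i) (2 - (a + b) ^ 2)) : 1 ≤ a + b := by
  by_contra hlt
  have hlt := not_le.mp hlt
  have hab := mul_nonneg ha hb
  have h0 : (a + b) ^ 2 < 1 := by nlinarith
  have h1 := far3 hx (by nlinarith)
  have h2 := far3 hz (by nlinarith)
  have h3 := far3 hw (by nlinarith)
  have h4 := sum_tri x z
  nlinarith

lemma three_eq {x z : Fin 8 → ℝ} {a b : ℝ} (ha : 0 < a) (hb : 0 < b) (hab : a + b = 1)
    (hx : Far x (2 - a ^ 2)) (hz : Far z (2 - b ^ 2)) (hw : Far (fun i => x i + z i) 1) :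
    ∃ n : Fin 8 → ℤ, (∀ i, x i + z i = n i) ∧ Odd (∑ i, n i) := by
  have hp := mul_pos ha hb
  have h0 : a ^ 2 + b ^ 2 < 1 := by nlinarith
  have h1 := far3 hx (by nlinarith)
  have h2 := far3 hz (by nlinarith)
  have h4 := sum_tri x z
  obtain ⟨M, hM0, -, hM, h3⟩ := far2 hw
  have h5 : ∑ i, gg (x i + z i) - 2 < 0 := by nlinarith
  have h6 : M ≤ 0 := by
    by_contra h7
    have := mul_neg_of_pos_of_neg (not_le.mp h7) h5
    linarith
  have h7 : ∀ i, x i + z i = (round (x i + z i) : ℤ) := by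
    intro i
    have : |x i + z i - round (x i + z i)| ≤ 0 := (hM i).trans h6
    exact sub_eq_zero.mp (abs_nonpos_iff.mp this)
  refine ⟨fun i => round (x i + z i), h7, ?_⟩
  by_contra ho
  have h8 := hw _ (Int.not_odd_iff_even.mp ho)
  have h9 : ∑ i, (x i + z i - ((round (x i + z i) : ℤ) : ℝ)) ^ 2 = 0 :=
    Finset.sum_eq_zero fun i _ => by rw [← h7 i]; simp
  linarith

lemma half_of_far {x : Fin 8 → ℝ} (hx : Far x 2) (i : Fin 8) : ∃ n : ℤ, x i = n + 1 / 2 := by
  have h1 := far3 hx (by norm_num)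
  have h2 : gg (x i) = 1 / 2 := by
    by_contra hne
    have h3 : ∑ j, gg (x j) < ∑ _j : Fin 8, (1 / 2 : ℝ) :=
      Finset.sum_lt_sum (fun j _ => gg_le _) ⟨i, Finset.mem_univ _, lt_of_le_of_ne (gg_le _) hne⟩
    norm_num at h3
    linarith
  unfold gg at h2
  rcases le_total 0 (x i - round (x i)) with h0 | h0
  · rw [abs_of_nonneg h0] at h2
    exact ⟨round (x i), by linarith⟩
  · rw [abs_of_nonpos h0] at h2
    exact ⟨round (x i) - 1, by push_cast; linarith⟩

end Pool.Agent.P.MP_926215_co
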