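import Mathlib

set_option autoImplicit false

namespace Pool.Agent.P.MP_926215_co

open Filter

/-- Euclidean 9-space; coordinate `0` is the height. -/
abbrev E9 : Type := EuclideanSpace ℝ (Fin 9)

/-- The root lattice `D9`: integer vectors with even coordinate sum. -/
def D9 : Set E9 := {v | ∃ n : Fin 9 → ℤ, (∀ i, v i = n i) ∧ Even (∑ i, n i)}

/-- The root lattice `D8`, placed in the hyperplane of height `0`. -/
def D8 : Set E9 := {v | v ∈ D9 ∧ v 0 = 0}

/-- `P` is the set of centres of a packing of balls of radius `√2 / 2`. -/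
def IsPacking (P : Set E9) : Prop := ∀ p ∈ P, ∀ q ∈ P, p ≠ q → √2 ≤ dist p q

/-- `P` is invariant under the translations by `D8`. -/
def D8Invariant (P : Set E9) : Prop := ∀ p ∈ P, ∀ v ∈ D8, p + v ∈ P

/-- the half-open cube `[-N, N)^9` -/
def cube (N : ℕ) : Set E9 := {x | ∀ i, -(N : ℝ) ≤ x i ∧ x i < N}

/-- upper centre density: radius to the ninth power times the upper limit of the number of
centres per unit volume in the cubes -/
noncomputable def centreDensity (P : Set E9) : ℝ :=
  (√2 / 2) ^ 9 * limsup (fun N : ℕ => ((P ∩ cube N).ncard : ℝ) / (2 * N) ^ 9) atTop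

/-- `P` has a translation symmetry of nonzero height. -/
def HeightPeriodic (P : Set E9) : Prop := ∃ w : E9, w 0 ≠ 0 ∧ ∀ x, x + w ∈ P ↔ x ∈ P

/-- a vector of height `0` whose other coordinates are halves of odd integers -/
def HalfVec (s : E9) : Prop := s 0 = 0 ∧ ∀ i, i ≠ 0 → ∃ n : ℤ, s i = n + 1 / 2

/-- `P` is a stack, at unit spacing, of translates of the `E8` lattices `D8 ∪ (s + D8)`. -/
def Layered (P : Set E9) : Prop :=
  ∃ (h : ℝ) (t s : ℤ → E9), (∀ k, t k 0 = h + k) ∧ (∀ k, HalfVec (s k)) ∧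
    P = {y | ∃ k, y - t k ∈ D8 ∨ y - (t k + s k) ∈ D8}

/-- `P` is the union of two different translates of `D9`. -/
def Diamond (P : Set E9) : Prop :=
  ∃ p q : E9, p - q ∉ D9 ∧ P = {y | y - p ∈ D9 ∨ y - q ∈ D9}

end Pool.Agent.P.MP_926215_co
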