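import Mathlib
import Pool.Agent.P.MP_926215_co.Core
import Pool.Agent.P.MP_926215_co.Defs

set_option autoImplicit false

namespace Pool.Agent.P.MP_926215_co

open Finset

/-- the point with integer coordinates `n` -/
noncomputable def iv (n : Fin 9 → ℤ) : E9 := WithLp.toLp 2 (fun i => (n i : ℝ))

@[simp] lemma iv_apply (n : Fin 9 → ℤ) (i : Fin 9) : iv n i = n i := rfl

lemma iv_mem_D9 {n : Fin 9 → ℤ} (h : Even (∑ i, n i)) : iv n ∈ D9 := ⟨n, fun _ => rfl, h⟩

lemma D9_add {u v : E9} (hu : u ∈ D9) (hv : v ∈ D9) : u + v ∈ D9 := by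
  obtain ⟨m, hm, em⟩ := hu
  obtain ⟨n, hn, en⟩ := hv
  refine ⟨fun i => m i + n i, fun i => by simp [hm, hn], ?_⟩
  rw [Finset.sum_add_distrib]
  exact em.add en

lemma D9_neg {u : E9} (hu : u ∈ D9) : -u ∈ D9 := by
  obtain ⟨m, hm, em⟩ := hu
  refine ⟨fun i => -m i, fun i => by simp [hm], ?_⟩
  rw [Finset.sum_neg_distrib]
  exact em.neg

lemma D9_zero : (0 : E9) ∈ D9 := ⟨fun _ => 0, fun i => by simp, by simp⟩

lemma D9_sub {u v : E9} (hu : u ∈ D9) (hv : v ∈ D9) : u - v ∈ D9 := by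
  rw [sub_eq_add_neg]
  exact D9_add hu (D9_neg hv)

lemma D8_add {u v : E9} (hu : u ∈ D8) (hv : v ∈ D8) : u + v ∈ D8 :=
  ⟨D9_add hu.1 hv.1, by simp [hu.2, hv.2]⟩

lemma D8_neg {u : E9} (hu : u ∈ D8) : -u ∈ D8 := ⟨D9_neg hu.1, by simp [hu.2]⟩

lemma D8_zero : (0 : E9) ∈ D8 := ⟨D9_zero, by simp⟩

lemma D8_sub {u v : E9} (hu : u ∈ D8) (hv : v ∈ D8) : u - v ∈ D8 :=
  ⟨D9_sub hu.1 hv.1, by simp [hu.2, hv.2]⟩

lemma D8_symm {p q : E9} (h : p - q ∈ D8) : q - p ∈ D8 := by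
  simpa using D8_neg h

lemma D9_symm {p q : E9} (h : p - q ∈ D9) : q - p ∈ D9 := by
  simpa using D9_neg h

lemma D8_trans {p q r : E9} (h : p - q ∈ D8) (h' : q - r ∈ D8) : p - r ∈ D8 := by
  simpa using D8_add h h'

lemma D9_trans {p q r : E9} (h : p - q ∈ D9) (h' : q - r ∈ D9) : p - r ∈ D9 := by
  simpa using D9_add h h'

lemma height_eq {p q : E9} (h : p - q ∈ D8) : p 0 = q 0 := by
  have := h.2
  simpa [sub_eq_zero] using this

lemma not_D8_of_height {p q : E9} (h : p 0 ≠ q 0) : p - q ∉ D8 := fun h' => h (height_eq h')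

lemma cons_mem_D8 {n : Fin 8 → ℤ} (h : Even (∑ i, n i)) : iv (Fin.cons 0 n) ∈ D8 :=
  ⟨iv_mem_D9 (by simpa [Fin.sum_univ_succ (n := 8)] using h), by simp⟩

/-- the vector of `D9` of height `k` -/
lemma exists_D9_height (k : ℤ) : ∃ v ∈ D9, v 0 = k := by
  refine ⟨iv (Fin.cons k (Fin.cons k 0)), iv_mem_D9 ?_, by simp⟩
  simp [Fin.sum_univ_succ (n := 8), Fin.sum_univ_succ (n := 7)]

lemma dist_sq (p q : E9) :
    dist p q ^ 2 = (p 0 - q 0) ^ 2 + ∑ i : Fin 8, (p i.succ - q i.succ) ^ 2 := by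
  rw [EuclideanSpace.dist_eq, Real.sq_sqrt (Finset.sum_nonneg fun i _ => sq_nonneg _),
    Fin.sum_univ_succ]
  simp [Real.dist_eq, sq_abs]

variable {P : Set E9}

lemma far_of_packing (hP : IsPacking P) (hI : D8Invariant P) {p q : E9} (hp : p ∈ P) (hq : q ∈ P)
    (h : q - p ∉ D8) : Far (fun i => q i.succ - p i.succ) (2 - (q 0 - p 0) ^ 2) := by
  intro n hn
  have hv := cons_mem_D8 hn
  have h1 := hP q hq _ (hI p hp _ hv) (fun he => h (by rw [he]; simpa using hv))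
  have h2 : (√2) ^ 2 ≤ dist q (p + iv (Fin.cons 0 n)) ^ 2 :=
    pow_le_pow_left₀ (Real.sqrt_nonneg _) h1 2
  rw [Real.sq_sqrt (by norm_num), dist_sq] at h2
  simp only [PiLp.add_apply, iv_apply, Fin.cons_zero, Fin.cons_succ, Int.cast_zero,
    add_zero] at h2
  have h3 : ∑ i : Fin 8, (q i.succ - (p i.succ + n i)) ^ 2
      = ∑ i : Fin 8, (q i.succ - p i.succ - n i) ^ 2 :=
    Finset.sum_congr rfl fun i _ => by ring
  linarith

lemma tp (hP : IsPacking P) (hI : D8Invariant P) {p q r : E9} (hp : p ∈ P) (hq : q ∈ P)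
    (hr : r ∈ P) (h1 : q - p ∉ D8) (h2 : r - q ∉ D8) (h3 : r - p ∉ D8) (a : p 0 ≤ q 0)
    (b : q 0 ≤ r 0) : p 0 + 1 ≤ r 0 := by
  have f1 := far_of_packing hP hI hp hq h1
  have f2 := far_of_packing hP hI hq hr h2
  have f3 := far_of_packing hP hI hp hr h3
  have := three (sub_nonneg.mpr a) (sub_nonneg.mpr b) f1 f2 (by
    have e1 : (fun i : Fin 8 => q i.succ - p i.succ + (r i.succ - q i.succ))
        = fun i : Fin 8 => r i.succ - p i.succ := by funext i; ring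
    have e2 : q 0 - p 0 + (r 0 - q 0) = r 0 - p 0 := by ring
    rw [e1, e2]; exact f3)
  linarith

/-- three different classes never have their heights in a set of diameter less than one -/
lemma tp' (hP : IsPacking P) (hI : D8Invariant P) {p q r : E9} (hp : p ∈ P) (hq : q ∈ P)
    (hr : r ∈ P) (h1 : q - p ∉ D8) (h2 : r - q ∉ D8) (h3 : r - p ∉ D8) {h : ℝ}
    (a : h ≤ p 0 ∧ p 0 < h + 1) (b : h ≤ q 0 ∧ q 0 < h + 1) (c : h ≤ r 0 ∧ r 0 < h + 1) :
    False := by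
  have g1 : p - q ∉ D8 := fun e => h1 (D8_symm e)
  have g2 : q - r ∉ D8 := fun e => h2 (D8_symm e)
  have g3 : p - r ∉ D8 := fun e => h3 (D8_symm e)
  obtain ⟨a1, a2⟩ := a
  obtain ⟨b1, b2⟩ := b
  obtain ⟨c1, c2⟩ := c
  rcases le_total (p 0) (q 0) with e1 | e1 <;> rcases le_total (q 0) (r 0) with e2 | e2 <;>
    rcases le_total (p 0) (r 0) with e3 | e3
  · have := tp hP hI hp hq hr h1 h2 h3 e1 e2; linarith
  · have := tp hP hI hp hq hr h1 h2 h3 e1 e2; linarith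
  · have := tp hP hI hp hr hq h3 g2 h1 e3 e2; linarith
  · have := tp hP hI hr hp hq g3 h1 g2 e3 e1; linarith
  · have := tp hP hI hq hp hr g1 h3 h2 e1 e3; linarith
  · have := tp hP hI hq hr hp h2 g3 g1 e2 e3; linarith
  · have := tp hP hI hr hq hp g2 g1 g3 e2 e1; linarith
  · have := tp hP hI hr hq hp g2 g1 g3 e2 e1; linarith

lemma tp_eq (hP : IsPacking P) (hI : D8Invariant P) {p q r : E9} (hp : p ∈ P) (hq : q ∈ P)
    (hr : r ∈ P) (a : p 0 < q 0) (b : q 0 < r 0) (c : r 0 = p 0 + 1) : r - p ∈ D9 := by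
  have f1 := far_of_packing hP hI hp hq (not_D8_of_height a.ne')
  have f2 := far_of_packing hP hI hq hr (not_D8_of_height b.ne')
  have f3 := far_of_packing hP hI hp hr (not_D8_of_height (a.trans b).ne')
  obtain ⟨n, hn, ho⟩ := three_eq (sub_pos.mpr a) (sub_pos.mpr b) (by linarith) f1 f2 (by
    have e1 : (fun i : Fin 8 => q i.succ - p i.succ + (r i.succ - q i.succ))
        = fun i : Fin 8 => r i.succ - p i.succ := by funext i; ring
    have e2 : 2 - (r 0 - p 0) ^ 2 = 1 := by rw [c]; ring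
    rw [e1, ← e2]; exact f3)
  refine ⟨Fin.cons 1 n, fun i => ?_, ?_⟩
  · refine Fin.cases ?_ (fun j => ?_) i
    · simp [c]
    · have := hn j
      simp only [PiLp.sub_apply, Fin.cons_succ]
      linarith
  · simpa [Fin.sum_univ_succ (n := 8)] using odd_one.add_odd ho

lemma halfVec_of_same (hP : IsPacking P) (hI : D8Invariant P) {p q : E9} (hp : p ∈ P) (hq : q ∈ P)
    (h : q - p ∉ D8) (e : q 0 = p 0) : HalfVec (q - p) := by
  have f := far_of_packing hP hI hp hq h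
  rw [e, sub_self] at f
  norm_num at f
  refine ⟨by simp [e], fun i hi => ?_⟩
  obtain ⟨j, rfl⟩ := Fin.exists_succ_eq.mpr hi
  simpa using half_of_far f j

/-- every half-open unit interval of heights carries two classes -/
def Full (P : Set E9) : Prop :=
  ∀ h : ℝ, ∃ p ∈ P, ∃ q ∈ P, q - p ∉ D8 ∧ (h ≤ p 0 ∧ p 0 < h + 1) ∧ (h ≤ q 0 ∧ q 0 < h + 1)

/-- two classes at height `h` -/
def Two (P : Set E9) (h : ℝ) : Prop := ∃ p ∈ P, ∃ q ∈ P, q - p ∉ D8 ∧ p 0 = h ∧ q 0 = h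

lemma two_gap (hP : IsPacking P) (hI : D8Invariant P) {h : ℝ} (H : Two P h) {r : E9} (hr : r ∈ P)
    (a : h - 1 < r 0) (b : r 0 < h + 1) : r 0 = h := by
  obtain ⟨p, hp, q, hq, hne, e1, e2⟩ := H
  by_contra hc
  have n1 : r - q ∉ D8 := not_D8_of_height (by rw [e2]; exact hc)
  have n2 : r - p ∉ D8 := not_D8_of_height (by rw [e1]; exact hc)
  rcases le_total h (r 0) with c | c
  · exact tp' hP hI hp hq hr hne n1 n2 (h := h) ⟨by linarith, by linarith⟩
      ⟨by linarith, by linarith⟩ ⟨c, b⟩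
  · exact tp' hP hI hp hq hr hne n1 n2 (h := r 0) ⟨by linarith, by linarith⟩
      ⟨by linarith, by linarith⟩ ⟨le_rfl, by linarith⟩

lemma two_down (hP : IsPacking P) (hI : D8Invariant P) (hF : Full P) {h : ℝ} (H : Two P h) :
    Two P (h - 1) := by
  obtain ⟨p, hp, q, hq, hne, ⟨a1, a2⟩, b1, b2⟩ := hF (h - 1)
  refine ⟨p, hp, q, hq, hne, ?_, ?_⟩
  · by_contra hc
    have := two_gap hP hI H hp (lt_of_le_of_ne a1 (Ne.symm hc)) (by linarith)
    linarith
  · by_contra hc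
    have := two_gap hP hI H hq (lt_of_le_of_ne b1 (Ne.symm hc)) (by linarith)
    linarith

lemma two_up (hP : IsPacking P) (hI : D8Invariant P) (hF : Full P) {h : ℝ} (H : Two P h) :
    Two P (h + 1) := by
  have key : ∀ r ∈ P, h + 1 ≤ r 0 → r 0 < h + 1 + 1 → r 0 = h + 1 := by
    intro r hr a b
    by_contra hc
    have a' : h + 1 < r 0 := lt_of_le_of_ne a (Ne.symm hc)
    obtain ⟨p, hp, q, hq, hne, ⟨a1, a2⟩, b1, b2⟩ := hF (r 0 - 1)
    have p1 : h + 1 ≤ p 0 := by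
      by_contra hd
      have := two_gap hP hI H hp (by linarith) (not_le.mp hd)
      linarith
    have q1 : h + 1 ≤ q 0 := by
      by_contra hd
      have := two_gap hP hI H hq (by linarith) (not_le.mp hd)
      linarith
    exact tp' hP hI hp hq hr hne (not_D8_of_height (by linarith)) (not_D8_of_height (by linarith))
      (h := h + 1) ⟨p1, by linarith⟩ ⟨q1, by linarith⟩ ⟨a, b⟩
  obtain ⟨p, hp, q, hq, hne, ⟨a1, a2⟩, b1, b2⟩ := hF (h + 1)
  exact ⟨p, hp, q, hq, hne, key p hp a1 a2, key q hq b1 b2⟩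

lemma layered_of_two (hP : IsPacking P) (hI : D8Invariant P) (hF : Full P) {h : ℝ} (H : Two P h) :
    Layered P := by
  have hall : ∀ k : ℤ, Two P (h + k) := by
    intro k
    induction k using Int.induction_on with
    | zero => simpa using H
    | succ k ih =>
      have := two_up hP hI hF ih
      push_cast at this ⊢
      rwa [add_assoc] at this
    | pred k ih =>
      have := two_down hP hI hF ih
      push_cast at this ⊢
      rwa [add_sub_assoc] at this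
  choose p hp q hq hne e1 e2 using hall
  refine ⟨h, p, fun k => q k - p k, e1,
    fun k => halfVec_of_same hP hI (hp k) (hq k) (hne k) ((e2 k).trans (e1 k).symm), ?_⟩
  ext y
  simp only [Set.mem_setOf_eq, add_sub_cancel]
  constructor
  · intro hy
    refine ⟨⌊y 0 - h⌋, ?_⟩
    by_contra hc
    rw [not_or] at hc
    have f1 := Int.floor_le (y 0 - h)
    have f2 := Int.lt_floor_add_one (y 0 - h)
    exact tp' hP hI (hp _) (hq _) hy (hne _) hc.2 hc.1 (h := h + ⌊y 0 - h⌋)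
      ⟨(e1 _).ge, by rw [e1]; linarith⟩ ⟨(e2 _).ge, by rw [e2]; linarith⟩
      ⟨by linarith, by linarith⟩
  · rintro ⟨k, hk | hk⟩
    · simpa using hI _ (hp k) _ hk
    · simpa using hI _ (hq k) _ hk

lemma step_down (hP : IsPacking P) (hI : D8Invariant P) (hF : Full P) (hN : ∀ h, ¬ Two P h)
    {p : E9} (hp : p ∈ P) : ∃ r ∈ P, r - p ∈ D9 ∧ r 0 = p 0 - 1 := by
  have key : ∀ r ∈ P, ∀ q ∈ P, r 0 < q 0 → p 0 - 1 ≤ r 0 → q 0 < p 0 →
      ∃ r ∈ P, r - p ∈ D9 ∧ r 0 = p 0 - 1 := by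
    intro r hr q hq a b c
    have := tp hP hI hr hq hp (not_D8_of_height a.ne') (not_D8_of_height c.ne')
      (not_D8_of_height (a.trans c).ne') a.le c.le
    exact ⟨r, hr, D9_symm (tp_eq hP hI hr hq hp a c (by linarith)), by linarith⟩
  obtain ⟨r, hr, q, hq, hne, ⟨a1, a2⟩, b1, b2⟩ := hF (p 0 - 1)
  rcases lt_trichotomy (r 0) (q 0) with e | e | e
  · exact key r hr q hq e a1 (by linarith)
  · exact absurd ⟨r, hr, q, hq, hne, e, rfl⟩ (hN (q 0))
  · exact key q hq r hr e b1 (by linarith)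

lemma next_up (hP : IsPacking P) (hI : D8Invariant P) (hF : Full P) (hN : ∀ h, ¬ Two P h)
    {p : E9} (hp : p ∈ P) : ∃ q ∈ P, p 0 < q 0 ∧ q 0 < p 0 + 1 := by
  obtain ⟨r, hr, q, hq, hne, ⟨a1, a2⟩, b1, b2⟩ := hF (p 0)
  rcases lt_trichotomy (r 0) (q 0) with e | e | e
  · exact ⟨q, hq, by linarith, b2⟩
  · exact absurd ⟨r, hr, q, hq, hne, e, rfl⟩ (hN (q 0))
  · exact ⟨r, hr, by linarith, a2⟩

lemma step_up (hP : IsPacking P) (hI : D8Invariant P) (hF : Full P) (hN : ∀ h, ¬ Two P h)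
    {p : E9} (hp : p ∈ P) : ∃ r ∈ P, r - p ∈ D9 ∧ r 0 = p 0 + 1 := by
  obtain ⟨q, hq, a1, a2⟩ := next_up hP hI hF hN hp
  obtain ⟨r, hr, b1, b2⟩ := next_up hP hI hF hN hq
  have c := tp hP hI hp hq hr (not_D8_of_height a1.ne') (not_D8_of_height b1.ne')
    (not_D8_of_height (a1.trans b1).ne') a1.le b1.le
  obtain ⟨u, hu, -, e⟩ := step_down hP hI hF hN hr
  have e2 : r 0 = p 0 + 1 := by
    by_contra hc
    have c' : p 0 + 1 < r 0 := lt_of_le_of_ne c (Ne.symm hc)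
    exact tp' hP hI hp hu hq (not_D8_of_height (by linarith)) (not_D8_of_height (by linarith))
      (not_D8_of_height a1.ne') (h := p 0) ⟨le_rfl, by linarith⟩ ⟨by linarith, by linarith⟩
      ⟨a1.le, a2⟩
  exact ⟨r, hr, tp_eq hP hI hp hq hr a1 b1 e2, e2⟩

lemma D9_inv (hP : IsPacking P) (hI : D8Invariant P) (hF : Full P) (hN : ∀ h, ¬ Two P h)
    {p y : E9} (hp : p ∈ P) (hy : y - p ∈ D9) : y ∈ P := by
  have hall : ∀ k : ℤ, ∃ r ∈ P, r - p ∈ D9 ∧ r 0 = p 0 + k := by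
    intro k
    induction k using Int.induction_on with
    | zero => exact ⟨p, hp, by simpa using D9_zero, by simp⟩
    | succ k ih =>
      obtain ⟨r, hr, d, e⟩ := ih
      obtain ⟨u, hu, d', e'⟩ := step_up hP hI hF hN hr
      exact ⟨u, hu, D9_trans d' d, by rw [e', e]; push_cast; ring⟩
    | pred k ih =>
      obtain ⟨r, hr, d, e⟩ := ih
      obtain ⟨u, hu, d', e'⟩ := step_down hP hI hF hN hr
      exact ⟨u, hu, D9_trans d' d, by rw [e', e]; push_cast; ring⟩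
  obtain ⟨n, hn, -⟩ := id hy
  obtain ⟨r, hr, d, e⟩ := hall (n 0)
  have h0 := hn 0
  simp only [PiLp.sub_apply] at h0
  have : y - r ∈ D8 := ⟨D9_trans hy (D9_symm d), by simp only [PiLp.sub_apply]; linarith⟩
  simpa using hI r hr _ this

lemma exists_shift (y : E9) (h : ℝ) : ∃ u : E9, u - y ∈ D9 ∧ h ≤ u 0 ∧ u 0 < h + 1 := by
  obtain ⟨v, hv, e⟩ := exists_D9_height ⌈h - y 0⌉
  have f1 := Int.le_ceil (h - y 0)
  have f2 := Int.ceil_lt_add_one (h - y 0)
  refine ⟨y + v, by simpa using hv, ?_, ?_⟩ <;> simp only [PiLp.add_apply, e] <;> linarith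

lemma diamond_of_not_two (hP : IsPacking P) (hI : D8Invariant P) (hF : Full P)
    (hN : ∀ h, ¬ Two P h) : Diamond P := by
  obtain ⟨p, hp, q, hq, hne, a, b⟩ := hF 0
  refine ⟨p, q, fun hd => hne (D8_symm ⟨hd, ?_⟩), ?_⟩
  · obtain ⟨n, hn, -⟩ := hd
    have h0 := hn 0
    simp only [PiLp.sub_apply] at h0 ⊢
    have h1 : ((-1 : ℤ) : ℝ) < n 0 := by push_cast; linarith [a.1, b.2]
    have h2 : (n 0 : ℝ) < ((1 : ℤ) : ℝ) := by push_cast; linarith [a.2, b.1]
    have h3 : n 0 = 0 := by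
      have := Int.cast_lt.mp h1
      have := Int.cast_lt.mp h2
      omega
    rw [h0, h3]; simp
  · ext y
    simp only [Set.mem_setOf_eq]
    constructor
    · intro hy
      obtain ⟨u, d, c⟩ := exists_shift y 0
      have hu := D9_inv hP hI hF hN hy d
      by_contra hc
      rw [not_or] at hc
      exact tp' hP hI hp hq hu hne (fun e => hc.2 (D9_trans (D9_symm d) e.1))
        (fun e => hc.1 (D9_trans (D9_symm d) e.1)) a b c
    · rintro (hy | hy)
      · exact D9_inv hP hI hF hN hp hy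
      · exact D9_inv hP hI hF hN hq hy

lemma full_of_layered (h : Layered P) : Full P := by
  obtain ⟨h0, t, s, ht, hs, rfl⟩ := h
  intro h
  have f1 := Int.le_ceil (h - h0)
  have f2 := Int.ceil_lt_add_one (h - h0)
  refine ⟨t ⌈h - h0⌉, ⟨⌈h - h0⌉, Or.inl (by simpa using D8_zero)⟩, t ⌈h - h0⌉ + s ⌈h - h0⌉,
    ⟨⌈h - h0⌉, Or.inr (by simpa using D8_zero)⟩, ?_, ?_, ?_⟩
  · rw [add_sub_cancel_left]
    rintro ⟨⟨n, hn, -⟩, -⟩
    obtain ⟨m, hm⟩ := (hs ⌈h - h0⌉).2 1 (by decide)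
    have h1 : ((2 * n 1 : ℤ) : ℝ) = ((2 * m + 1 : ℤ) : ℝ) := by
      push_cast; rw [← hn 1, hm]; ring
    have := Int.cast_injective h1
    omega
  · rw [ht]; constructor <;> linarith
  · simp only [PiLp.add_apply, ht, (hs _).1]; constructor <;> linarith

lemma full_of_diamond (h : Diamond P) : Full P := by
  obtain ⟨p, q, hne, rfl⟩ := h
  intro h
  obtain ⟨u, d, c⟩ := exists_shift p h
  obtain ⟨v, d', c'⟩ := exists_shift q h
  exact ⟨u, Or.inl d, v, Or.inr d',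
    fun e => hne (D9_trans (D9_trans (D9_symm d) (D9_symm e.1)) d'), c, c'⟩

lemma full_iff (hP : IsPacking P) (hI : D8Invariant P) : Full P ↔ Layered P ∨ Diamond P := by
  constructor
  · intro hF
    by_cases hN : ∃ h, Two P h
    · obtain ⟨h, H⟩ := hN
      exact Or.inl (layered_of_two hP hI hF H)
    · exact Or.inr (diamond_of_not_two hP hI hF (not_exists.mp hN))
  · rintro (h | h)
    · exact full_of_layered h
    · exact full_of_diamond h

end Pool.Agent.P.MP_926215_co
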