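import Mathlib
import Pool.Agent.P.MP_926215_co.Struct

set_option autoImplicit false

namespace Pool.Agent.P.MP_926215_co

open Finset Filter

/-- side lengths of a fundamental box of `D8` -/
def wd (i : Fin 8) : ℕ := if i = 0 then 2 else 1

/-- the column over the fundamental box with corner `x` -/
def Box (x : Fin 8 → ℝ) : Set E9 := {y | ∀ i : Fin 8, x i ≤ y i.succ ∧ y i.succ < x i + wd i}

lemma wd_pos (i : Fin 8) : (0 : ℝ) < wd i := by
  unfold wd; split_ifs <;> norm_num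

lemma box_unique {x : Fin 8 → ℝ} {y z : E9} (hy : y ∈ Box x) (hz : z ∈ Box x) (h : y - z ∈ D8) :
    y = z := by
  obtain ⟨⟨n, hn, he⟩, h0⟩ := h
  have hb : ∀ i : Fin 8, -(wd i : ℤ) < n i.succ ∧ n i.succ < wd i := by
    intro i
    have a := hy i
    have b := hz i
    have c := hn i.succ
    simp only [PiLp.sub_apply] at c
    constructor
    · have : ((-(wd i : ℤ) : ℤ) : ℝ) < n i.succ := by push_cast; linarith [a.1, b.2]
      exact_mod_cast this
    · have : (n i.succ : ℝ) < ((wd i : ℤ) : ℝ) := by push_cast; linarith [a.2, b.1]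
      exact_mod_cast this
  have n0 : n 0 = 0 := by
    have := hn 0
    exact Int.cast_eq_zero.mp (this.symm.trans h0)
  have n2 : ∀ j : Fin 7, n j.succ.succ = 0 := by
    intro j
    have := hb j.succ
    simp only [wd, Fin.succ_ne_zero, if_false] at this
    omega
  have n1 : n (Fin.succ 0) = 0 := by
    have := hb 0
    rw [Fin.sum_univ_succ, Fin.sum_univ_succ, n0] at he
    simp only [n2, Finset.sum_const_zero, add_zero, zero_add] at he
    simp only [wd, if_true] at this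
    obtain ⟨m, hm⟩ := he
    omega
  have hall : ∀ i, n i = 0 := fun i =>
    Fin.cases n0 (fun j => Fin.cases n1 (fun k => n2 k) j) i
  ext i
  have := hn i
  rw [hall i] at this
  simpa [sub_eq_zero] using this

lemma box_exists (x : Fin 8 → ℝ) (p : E9) : ∃ y ∈ Box x, y - p ∈ D8 := by
  have hw : ∀ i, (1 : ℝ) ≤ wd i := by
    intro i; unfold wd; split_ifs <;> norm_num
  by_cases he : Even (∑ i : Fin 8, ⌈x i - p i.succ⌉)
  · refine ⟨p + iv (Fin.cons 0 fun i => ⌈x i - p i.succ⌉), fun i => ?_,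
      by simpa using cons_mem_D8 he⟩
    have f1 := Int.le_ceil (x i - p i.succ)
    have f2 := Int.ceil_lt_add_one (x i - p i.succ)
    have := hw i
    simp only [PiLp.add_apply, iv_apply, Fin.cons_succ]
    constructor <;> linarith
  · have ho := Int.not_even_iff_odd.mp he
    have he' : Even (∑ i : Fin 8, (⌈x i - p i.succ⌉ + if i = 0 then 1 else 0)) := by
      rw [Finset.sum_add_distrib, Finset.sum_ite_eq']
      simpa using ho.add_odd odd_one
    refine ⟨p + iv (Fin.cons 0 fun i => ⌈x i - p i.succ⌉ + if i = 0 then 1 else 0), fun i => ?_,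
      by simpa using cons_mem_D8 he'⟩
    have f1 := Int.le_ceil (x i - p i.succ)
    have f2 := Int.ceil_lt_add_one (x i - p i.succ)
    simp only [PiLp.add_apply, iv_apply, Fin.cons_succ, wd]
    split_ifs <;> push_cast <;> constructor <;> linarith

/-- the representative of the class of `p` in the column over the origin -/
noncomputable def rep (p : E9) : E9 := (box_exists 0 p).choose

lemma rep_mem (p : E9) : rep p ∈ Box 0 := (box_exists 0 p).choose_spec.1

lemma rep_sub (p : E9) : rep p - p ∈ D8 := (box_exists 0 p).choose_spec.2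

lemma rep_height (p : E9) : rep p 0 = p 0 := height_eq (rep_sub p)

/-- the classes of `P` with height in `[a, b)` -/
def Sl (P : Set E9) (a b : ℝ) : Set E9 := {y | y ∈ P ∧ y ∈ Box 0 ∧ a ≤ y 0 ∧ y 0 < b}

variable {P : Set E9}

lemma rep_mem_P (hI : D8Invariant P) {p : E9} (hp : p ∈ P) : rep p ∈ P := by
  simpa using hI p hp _ (rep_sub p)

lemma sl_unit (hP : IsPacking P) (hI : D8Invariant P) (a : ℝ) :
    ∃ u v : E9, Sl P a (a + 1) ⊆ {u, v} := by
  by_cases h1 : ∃ u, u ∈ Sl P a (a + 1)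
  · obtain ⟨u, hu⟩ := h1
    by_cases h2 : ∃ v ∈ Sl P a (a + 1), v ≠ u
    · obtain ⟨v, hv, hne⟩ := h2
      refine ⟨u, v, fun y hy => ?_⟩
      by_contra hc
      simp only [Set.mem_insert_iff, Set.mem_singleton_iff, not_or] at hc
      exact tp' hP hI hu.1 hv.1 hy.1 (fun e => hne (box_unique hv.2.1 hu.2.1 e))
        (fun e => hc.2 (box_unique hy.2.1 hv.2.1 e)) (fun e => hc.1 (box_unique hy.2.1 hu.2.1 e))
        hu.2.2 hv.2.2 hy.2.2
    · refine ⟨u, u, fun y hy => Or.inl ?_⟩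
      by_contra hc
      exact h2 ⟨y, hy, hc⟩
  · exact ⟨0, 0, fun y hy => absurd ⟨y, hy⟩ h1⟩

lemma sl_unit_finite (hP : IsPacking P) (hI : D8Invariant P) (a : ℝ) :
    (Sl P a (a + 1)).Finite := by
  obtain ⟨u, v, h⟩ := sl_unit hP hI a
  exact (Set.toFinite _).subset h

lemma sl_unit_le (hP : IsPacking P) (hI : D8Invariant P) (a : ℝ) :
    (Sl P a (a + 1)).ncard ≤ 2 := by
  obtain ⟨u, v, h⟩ := sl_unit hP hI a
  refine (Set.ncard_le_ncard h (Set.toFinite _)).trans ?_
  simpa using Set.ncard_insert_le u {v}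

lemma sl_mono {a b c d : ℝ} (h1 : c ≤ a) (h2 : b ≤ d) : Sl P a b ⊆ Sl P c d :=
  fun _ hy => ⟨hy.1, hy.2.1, h1.trans hy.2.2.1, hy.2.2.2.trans_le h2⟩

lemma sl_union {a b c : ℝ} (h1 : a ≤ b) (h2 : b ≤ c) : Sl P a c = Sl P a b ∪ Sl P b c := by
  ext y
  constructor
  · intro hy
    rcases lt_or_ge (y 0) b with e | e
    · exact Or.inl ⟨hy.1, hy.2.1, hy.2.2.1, e⟩
    · exact Or.inr ⟨hy.1, hy.2.1, e, hy.2.2.2⟩
  · rintro (hy | hy)
    · exact sl_mono le_rfl h2 hy
    · exact sl_mono h1 le_rfl hy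

lemma sl_finite (hP : IsPacking P) (hI : D8Invariant P) (a b : ℝ) : (Sl P a b).Finite := by
  have key : ∀ k : ℕ, (Sl P a (a + k)).Finite := by
    intro k
    induction k with
    | zero => exact (sl_unit_finite hP hI a).subset (sl_mono le_rfl (by simp))
    | succ k ih =>
      have h0 : (0 : ℝ) ≤ k := Nat.cast_nonneg k
      rw [sl_union (b := a + k) (by linarith) (by push_cast; linarith)]
      refine ih.union ?_
      have := sl_unit_finite hP hI (a + k)
      push_cast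
      rwa [← add_assoc]
  refine (key ⌈b - a⌉₊).subset (sl_mono le_rfl ?_)
  have := Nat.le_ceil (b - a)
  linarith

lemma sl_add (hP : IsPacking P) (hI : D8Invariant P) {a b c : ℝ} (h1 : a ≤ b) (h2 : b ≤ c) :
    (Sl P a c).ncard = (Sl P a b).ncard + (Sl P b c).ncard := by
  rw [sl_union h1 h2]
  refine Set.ncard_union_eq ?_ (sl_finite hP hI _ _) (sl_finite hP hI _ _)
  rw [Set.disjoint_left]
  intro y hy hz
  exact absurd hy.2.2.2 (not_lt.mpr hz.2.2.1)

lemma sl_empty (a : ℝ) : (Sl P a a).ncard = 0 := by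
  have : Sl P a a = ∅ := by
    ext y
    simp only [Set.mem_empty_iff_false, iff_false]
    intro hy
    exact absurd hy.2.2.2 (not_lt.mpr hy.2.2.1)
  simp [this]

lemma sl_le (hP : IsPacking P) (hI : D8Invariant P) (a : ℝ) (k : ℕ) :
    (Sl P a (a + k)).ncard ≤ 2 * k := by
  induction k with
  | zero => simp [sl_empty]
  | succ k ih =>
    have h0 : (0 : ℝ) ≤ k := Nat.cast_nonneg k
    rw [sl_add hP hI (b := a + k) (by linarith) (by push_cast; linarith)]
    have := sl_unit_le hP hI (a + k)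
    push_cast
    rw [← add_assoc]
    omega

lemma sl_unit_eq (hP : IsPacking P) (hI : D8Invariant P) (hF : Full P) (a : ℝ) :
    (Sl P a (a + 1)).ncard = 2 := by
  refine le_antisymm (sl_unit_le hP hI a) ?_
  obtain ⟨p, hp, q, hq, hne, e1, e2⟩ := hF a
  refine (Set.one_lt_ncard (sl_finite hP hI _ _)).mpr
    ⟨rep p, ⟨rep_mem_P hI hp, rep_mem p, by rwa [rep_height]⟩,
      rep q, ⟨rep_mem_P hI hq, rep_mem q, by rwa [rep_height]⟩, fun e => hne ?_⟩
  have h1 := rep_sub p
  rw [e] at h1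
  exact D8_trans (D8_symm (rep_sub q)) h1

lemma sl_eq (hP : IsPacking P) (hI : D8Invariant P) (hF : Full P) (a : ℝ) (k : ℕ) :
    (Sl P a (a + k)).ncard = 2 * k := by
  induction k with
  | zero => simp [sl_empty]
  | succ k ih =>
    have h0 : (0 : ℝ) ≤ k := Nat.cast_nonneg k
    rw [sl_add hP hI (b := a + k) (by linarith) (by push_cast; linarith)]
    have := sl_unit_eq hP hI hF (a + k)
    push_cast
    rw [← add_assoc]
    omega

lemma sl_deficient (hP : IsPacking P) (hI : D8Invariant P) (hF : ¬ Full P) :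
    ∃ a : ℝ, (Sl P a (a + 1)).ncard ≤ 1 := by
  by_contra hc
  refine hF fun a => ?_
  have h1 : 1 < (Sl P a (a + 1)).ncard := by
    by_contra h2
    exact hc ⟨a, not_lt.mp h2⟩
  obtain ⟨p, hp, q, hq, hne⟩ := (Set.one_lt_ncard (sl_finite hP hI _ _)).mp h1
  exact ⟨p, hp.1, q, hq.1, fun e => hne (box_unique hq.2.1 hp.2.1 e).symm, hp.2.2, hq.2.2⟩

lemma sl_shift_le (hP : IsPacking P) (hI : D8Invariant P) {w : E9} (hw : ∀ x ∈ P, x + w ∈ P)
    (a b : ℝ) : (Sl P a b).ncard ≤ (Sl P (a + w 0) (b + w 0)).ncard := by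
  refine Set.ncard_le_ncard_of_injOn (fun y => rep (y + w)) (fun y hy => ?_)
    (fun y hy z hz e => ?_) (sl_finite hP hI _ _)
  · refine ⟨rep_mem_P hI (hw y hy.1), rep_mem _, ?_⟩
    rw [rep_height]
    simp only [PiLp.add_apply]
    exact ⟨by linarith [hy.2.2.1], by linarith [hy.2.2.2]⟩
  · have h1 := rep_sub (y + w)
    have e' : rep (y + w) = rep (z + w) := e
    rw [e'] at h1
    have h2 := D8_trans (D8_symm h1) (rep_sub (z + w))
    exact box_unique hy.2.1 hz.2.1 (by simpa using h2)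

lemma sl_shift (hP : IsPacking P) (hI : D8Invariant P) {w : E9} (hw : ∀ x, x + w ∈ P ↔ x ∈ P)
    (a b : ℝ) : (Sl P (a + w 0) (b + w 0)).ncard = (Sl P a b).ncard := by
  refine le_antisymm ?_ (sl_shift_le hP hI (fun x hx => (hw x).mpr hx) a b)
  have := sl_shift_le hP hI (w := -w) (fun x hx => (hw _).mp (by simpa using hx))
    (a + w 0) (b + w 0)
  simpa using this

lemma sl_shift_n (hP : IsPacking P) (hI : D8Invariant P) {w : E9} (hw : ∀ x, x + w ∈ P ↔ x ∈ P)
    (a b : ℝ) (j : ℕ) : (Sl P (a + j * w 0) (b + j * w 0)).ncard = (Sl P a b).ncard := by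
  induction j with
  | zero => simp
  | succ j ih =>
    rw [← ih, ← sl_shift hP hI hw (a + j * w 0)]
    push_cast
    congr 2 <;> ring

lemma sl_period (hP : IsPacking P) (hI : D8Invariant P) {w : E9} (hw : ∀ x, x + w ∈ P ↔ x ∈ P)
    (h0 : 0 < w 0) (a : ℝ) (j : ℕ) :
    (Sl P a (a + j * w 0)).ncard = j * (Sl P a (a + w 0)).ncard := by
  induction j with
  | zero => simp [sl_empty]
  | succ j ih =>
    have hj : (0 : ℝ) ≤ j * w 0 := mul_nonneg (Nat.cast_nonneg j) h0.le
    rw [sl_add hP hI (b := a + j * w 0) (by linarith) (by push_cast; linarith), ih, add_mul j 1,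
      one_mul, ← sl_shift_n hP hI hw a (a + w 0) j]
    push_cast
    congr 3
    ring

lemma period_lt (hP : IsPacking P) (hI : D8Invariant P) {w : E9} (hw : ∀ x, x + w ∈ P ↔ x ∈ P)
    (h0 : 0 < w 0) {a : ℝ} (ha : (Sl P a (a + 1)).ncard ≤ 1) :
    ((Sl P a (a + w 0)).ncard : ℝ) < 2 * w 0 := by
  by_contra hc
  have hc := not_lt.mp hc
  have h2 := sl_period hP hI hw h0 a 2
  generalize (Sl P a (a + w 0)).ncard = K at hc h2
  have hK : 0 < K := by
    have : (0 : ℝ) < K := by linarith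
    exact_mod_cast this
  obtain ⟨L, rfl⟩ : ∃ L, K = L + 1 := ⟨K - 1, by omega⟩
  have hL : (0 : ℝ) ≤ L := Nat.cast_nonneg L
  have h3 : (Sl P a (a + (2 : ℕ) * w 0)).ncard ≤ (Sl P a (a + 1 + L)).ncard :=
    Set.ncard_le_ncard (sl_mono le_rfl (by push_cast at hc ⊢; linarith)) (sl_finite hP hI _ _)
  rw [sl_add hP hI (a := a) (b := a + 1) (c := a + 1 + L) (by linarith) (by linarith)] at h3
  have h4 := sl_le hP hI (a + 1) L
  omega

/-- index set of the boxes that tile the cube -/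
noncomputable def Idx (N : ℕ) : Finset (Fin 8 → ℤ) :=
  Fintype.piFinset fun i => Finset.Ico (0 : ℤ) (if i = 0 then N else 2 * N)

lemma card_Idx (N : ℕ) : (Idx N).card = N * (2 * N) ^ 7 := by
  unfold Idx
  rw [Fintype.card_piFinset, Fin.prod_univ_succ]
  have : (2 * (N : ℤ)).toNat = 2 * N := by omega
  simp [this]

lemma wd_mul (N : ℕ) (i : Fin 8) :
    (wd i : ℝ) * ((if i = 0 then (N : ℤ) else 2 * N : ℤ) : ℝ) = 2 * N := by
  unfold wd
  split_ifs <;> push_cast <;> ring

lemma card_cube (hI : D8Invariant P) (N : ℕ) :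
    (P ∩ cube N).ncard = (Sl P (-N) N).ncard * (N * (2 * N) ^ 7) := by
  rw [← card_Idx, ← Set.ncard_coe_finset (Idx N), ← Set.ncard_prod]
  have hbox : ∀ (y : E9) (m : Fin 8 → ℤ), y ∈ Box (fun i => wd i * m i - N) ↔
      ∀ i : Fin 8, ⌊(y i.succ + N) / wd i⌋ = m i := by
    intro y m
    refine forall_congr' fun i => ?_
    rw [Int.floor_eq_iff, le_div_iff₀ (wd_pos i), div_lt_iff₀ (wd_pos i)]
    constructor <;> rintro ⟨a, b⟩ <;> constructor <;> linarith
  refine Set.ncard_congr (fun y _ => (rep y, fun i : Fin 8 => ⌊(y i.succ + N) / wd i⌋))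
    (fun y hy => ?_) (fun y z _ _ e => ?_) (fun c hc => ?_)
  · refine ⟨⟨rep_mem_P hI hy.1, rep_mem y, by rw [rep_height]; exact hy.2 0⟩, ?_⟩
    simp only [Idx, Finset.mem_coe, Fintype.mem_piFinset, Finset.mem_Ico]
    intro i
    have a := hy.2 i.succ
    rw [Int.floor_nonneg, Int.floor_lt, div_lt_iff₀ (wd_pos i), mul_comm, wd_mul]
    exact ⟨div_nonneg (by linarith [a.1]) (wd_pos i).le, by linarith [a.2]⟩
  · obtain ⟨e1, e2⟩ := Prod.mk.inj e
    have h1 := rep_sub y
    rw [e1] at h1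
    exact box_unique ((hbox y _).mpr fun i => congrFun e2 i) ((hbox z _).mpr fun _ => rfl)
      (D8_trans (D8_symm h1) (rep_sub z))
  · obtain ⟨c, m⟩ := c
    obtain ⟨hc, hm⟩ := hc
    simp only [Idx, Finset.mem_coe, Fintype.mem_piFinset, Finset.mem_Ico] at hc hm
    obtain ⟨y, hy, d⟩ := box_exists (fun i => wd i * m i - N) c
    refine ⟨y, ⟨by simpa using hI c hc.1 _ d, fun i => ?_⟩, Prod.ext ?_ ?_⟩
    · refine Fin.cases ?_ (fun j => ?_) i
      · rw [height_eq d]; exact hc.2.2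
      · have a := hy j
        have b1 : (0 : ℝ) ≤ m j := by exact_mod_cast (hm j).1
        have b2 : (m j : ℝ) + 1 ≤ ((if j = 0 then (N : ℤ) else 2 * N : ℤ) : ℝ) := by
          exact_mod_cast (hm j).2
        have b3 := mul_le_mul_of_nonneg_left b2 (wd_pos j).le
        rw [wd_mul] at b3
        have b4 := mul_nonneg (wd_pos j).le b1
        constructor <;> linarith [a.1, a.2]
    · exact box_unique (rep_mem y) hc.2.1 (D8_trans (rep_sub y) d)
    · funext i
      exact (hbox y m).mp hy i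

lemma ratio_eq (hI : D8Invariant P) {N : ℕ} (hN : 0 < N) :
    ((P ∩ cube N).ncard : ℝ) / (2 * N) ^ 9 = (Sl P (-N) N).ncard / (4 * N) := by
  have : (0 : ℝ) < N := by exact_mod_cast hN
  rw [card_cube hI]
  push_cast
  field_simp
  ring

lemma limsup_le {c : ℝ} (h : ∀ᶠ N : ℕ in atTop, ((P ∩ cube N).ncard : ℝ) / (2 * N) ^ 9 ≤ c) :
    limsup (fun N : ℕ => ((P ∩ cube N).ncard : ℝ) / (2 * N) ^ 9) atTop ≤ c :=
  limsup_le_of_le (isCoboundedUnder_le_of_le atTop (x := 0) fun N => by positivity) h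

lemma density_le (hP : IsPacking P) (hI : D8Invariant P) :
    limsup (fun N : ℕ => ((P ∩ cube N).ncard : ℝ) / (2 * N) ^ 9) atTop ≤ 1 := by
  refine limsup_le ((eventually_gt_atTop 0).mono fun N hN => ?_)
  have h0 : (0 : ℝ) < N := by exact_mod_cast hN
  have h1 := sl_le hP hI (-N) (2 * N)
  rw [show -(N : ℝ) + ((2 * N : ℕ) : ℝ) = N by push_cast; ring] at h1
  rw [ratio_eq hI hN, div_le_one (by positivity)]
  have h2 : ((Sl P (-N) N).ncard : ℝ) ≤ ((2 * (2 * N) : ℕ) : ℝ) := by exact_mod_cast h1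
  push_cast at h2
  linarith

lemma density_of_full (hP : IsPacking P) (hI : D8Invariant P) (hF : Full P) :
    limsup (fun N : ℕ => ((P ∩ cube N).ncard : ℝ) / (2 * N) ^ 9) atTop = 1 := by
  rw [limsup_congr (v := fun _ => (1 : ℝ)), limsup_const]
  refine (eventually_gt_atTop 0).mono fun N hN => ?_
  have h0 : (0 : ℝ) < N := by exact_mod_cast hN
  have h1 := sl_eq hP hI hF (-N) (2 * N)
  rw [show -(N : ℝ) + ((2 * N : ℕ) : ℝ) = N by push_cast; ring] at h1
  rw [ratio_eq hI hN, h1]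
  push_cast
  field_simp
  ring

lemma density_lt (hP : IsPacking P) (hI : D8Invariant P) (hH : HeightPeriodic P) (hF : ¬ Full P) :
    limsup (fun N : ℕ => ((P ∩ cube N).ncard : ℝ) / (2 * N) ^ 9) atTop < 1 := by
  obtain ⟨w, h0, hw⟩ : ∃ w : E9, 0 < w 0 ∧ ∀ x, x + w ∈ P ↔ x ∈ P := by
    obtain ⟨w, h0, hw⟩ := hH
    rcases lt_or_gt_of_ne h0 with h | h
    · exact ⟨-w, by simpa using h, fun x => by rw [← hw (x + -w)]; simp⟩
    · exact ⟨w, h, hw⟩
  obtain ⟨a, ha⟩ := sl_deficient hP hI hF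
  have hK := period_lt hP hI hw h0 ha
  have hbound : ∀ N : ℕ, ((Sl P (-N) N).ncard : ℝ) * w 0
      ≤ 2 * (N + |a| + w 0) * (Sl P a (a + w 0)).ncard := by
    intro N
    have hN : (0 : ℝ) ≤ N := Nat.cast_nonneg N
    have hx : 0 ≤ (N + |a|) / w 0 := by positivity
    have j1 := Nat.le_ceil ((N + |a|) / w 0)
    have j2 := (Nat.ceil_lt_add_one hx).le
    generalize ⌈(N + |a|) / w 0⌉₊ = j at j1 j2
    rw [div_le_iff₀ h0] at j1
    have j3 : j * w 0 ≤ N + |a| + w 0 := by
      have := mul_le_mul_of_nonneg_right j2 h0.le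
      rwa [add_mul, div_mul_cancel₀ _ h0.ne', one_mul] at this
    have a1 := le_abs_self a
    have a2 := neg_abs_le a
    have h1 : (Sl P (-N) N).ncard ≤ (Sl P (a - j * w 0) (a + j * w 0)).ncard :=
      Set.ncard_le_ncard (sl_mono (by linarith) (by linarith)) (sl_finite hP hI _ _)
    rw [← sl_shift_n hP hI hw (a - j * w 0) _ j, sub_add_cancel,
      show a + j * w 0 + j * w 0 = a + ((2 * j : ℕ) : ℝ) * w 0 by push_cast; ring,
      sl_period hP hI hw h0] at h1
    have h2 : ((Sl P (-N) N).ncard : ℝ) ≤ 2 * j * (Sl P a (a + w 0)).ncard := by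
      exact_mod_cast h1
    have h3 : (0 : ℝ) ≤ (Sl P a (a + w 0)).ncard := Nat.cast_nonneg _
    have h4 := mul_le_mul_of_nonneg_right h2 h0.le
    have h5 := mul_le_mul_of_nonneg_right j3 h3
    nlinarith
  have hK0 : (0 : ℝ) ≤ (Sl P a (a + w 0)).ncard := Nat.cast_nonneg _
  generalize ((Sl P a (a + w 0)).ncard : ℝ) = K at hK hbound hK0
  have hc : (K + 2 * w 0) / (4 * w 0) < 1 := by
    rw [div_lt_one (by positivity)]; linarith
  refine lt_of_le_of_lt (limsup_le ?_) hc
  obtain ⟨M, hM⟩ := exists_nat_ge (2 * (|a| + w 0) * K / (2 * w 0 - K))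
  refine (eventually_gt_atTop M).mono fun N hN => ?_
  have hN0 : 0 < N := by omega
  have n0 : (0 : ℝ) < N := by exact_mod_cast hN0
  have n1 : (M : ℝ) ≤ N := by exact_mod_cast hN.le
  have n2 := hM.trans n1
  rw [div_le_iff₀ (by linarith)] at n2
  rw [ratio_eq hI hN0, div_le_div_iff₀ (by positivity) (by positivity)]
  have := hbound N
  nlinarith

lemma radius_pow : (√2 / 2 : ℝ) ^ 9 = (2 : ℝ) ^ (-(9 / 2) : ℝ) := by
  have h1 : (√2 / 2 : ℝ) = (2 : ℝ) ^ (-(1 / 2) : ℝ) := by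
    rw [show (-(1 / 2) : ℝ) = 1 / 2 - 1 by norm_num, Real.rpow_sub (by norm_num), Real.rpow_one,
      Real.sqrt_eq_rpow]
  rw [h1, ← Real.rpow_natCast, ← Real.rpow_mul (by norm_num)]
  norm_num

theorem main (hP : IsPacking P) (hI : D8Invariant P) :
    centreDensity P ≤ (2 : ℝ) ^ (-(9 / 2) : ℝ) ∧
      (HeightPeriodic P → (centreDensity P = (2 : ℝ) ^ (-(9 / 2) : ℝ) ↔ Layered P ∨ Diamond P)) := by
  have hr : (0 : ℝ) < (2 : ℝ) ^ (-(9 / 2) : ℝ) := Real.rpow_pos_of_pos (by norm_num) _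
  unfold centreDensity
  rw [radius_pow]
  refine ⟨mul_le_of_le_one_right hr.le (density_le hP hI), fun hH => ?_⟩
  rw [← full_iff hP hI]
  constructor
  · intro h
    by_contra hF
    have := mul_lt_of_lt_one_right hr (density_lt hP hI hH hF)
    exact this.ne h
  · intro hF
    rw [density_of_full hP hI hF, mul_one]

end Pool.Agent.P.MP_926215_co
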