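import Mathlib
import Pool.Agent.P.MP_926215_co.Count

set_option autoImplicit false

namespace Pool.Agent.P.MP_926215_co

open Finset

/-- the glue vector of the laminated lattice -/
noncomputable def glue : E9 := WithLp.toLp 2 (fun i => if i = 0 then (0 : ℝ) else 1 / 2)

/-- the laminated lattice in dimension nine -/
def Lam : Set E9 := {y | y - 0 ∈ D9 ∨ y - glue ∈ D9}

lemma two_le_dist {p q : E9} (h : 2 ≤ (p 0 - q 0) ^ 2 + ∑ i : Fin 8, (p i.succ - q i.succ) ^ 2) :
    √2 ≤ dist p q := by
  rw [← dist_sq] at h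
  exact Real.sqrt_le_iff.mpr ⟨dist_nonneg, h⟩

lemma dist_of_D9 {p q : E9} (h : p - q ∈ D9) (hne : p ≠ q) : √2 ≤ dist p q := by
  obtain ⟨n, hn, he⟩ := h
  simp only [PiLp.sub_apply] at hn
  apply two_le_dist
  simp only [hn]
  have h1 : Even (∑ i, n i ^ 2) := by
    have : Even (∑ i, (n i ^ 2 - n i)) :=
      Finset.even_sum _ fun i _ => by
        have := Int.even_mul_pred_self (n i)
        rwa [show n i * (n i - 1) = n i ^ 2 - n i by ring] at this
    rw [Finset.sum_sub_distrib] at this
    simpa using this.add he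
  have h2 : 0 < ∑ i, n i ^ 2 := by
    by_contra hc
    apply hne
    have h3 : ∑ i, n i ^ 2 = 0 :=
      le_antisymm (not_lt.mp hc) (Finset.sum_nonneg fun i _ => sq_nonneg _)
    rw [Finset.sum_eq_zero_iff_of_nonneg fun i _ => sq_nonneg _] at h3
    ext i
    have h4 : n i = 0 := by simpa using h3 i (Finset.mem_univ _)
    have := hn i
    rw [h4] at this
    simpa [sub_eq_zero] using this
  have h3 : 2 ≤ ∑ i, n i ^ 2 := by
    obtain ⟨m, hm⟩ := h1
    omega
  rw [Fin.sum_univ_succ] at h3
  exact_mod_cast h3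

lemma dist_of_glue {p q : E9} (h : p - q - glue ∈ D9) : √2 ≤ dist p q := by
  obtain ⟨n, hn, -⟩ := h
  apply two_le_dist
  have h1 : ∀ i : Fin 8, (1 / 4 : ℝ) ≤ (p i.succ - q i.succ) ^ 2 := by
    intro i
    have a := hn i.succ
    simp only [PiLp.sub_apply, glue, Fin.succ_ne_zero, if_false] at a
    have b : (0 : ℝ) ≤ ((n i.succ * (n i.succ + 1) : ℤ) : ℝ) := by
      have : 0 ≤ n i.succ * (n i.succ + 1) := by
        rcases le_or_gt 0 (n i.succ) with c | c
        · positivity
        · exact mul_nonneg_of_nonpos_of_nonpos c.le (by omega)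
      exact_mod_cast this
    push_cast at b
    have c : p i.succ - q i.succ = n i.succ + 1 / 2 := by linarith
    rw [c]
    nlinarith
  have h2 : ∑ _i : Fin 8, (1 / 4 : ℝ) ≤ ∑ i : Fin 8, (p i.succ - q i.succ) ^ 2 :=
    Finset.sum_le_sum fun i _ => h1 i
  norm_num at h2
  nlinarith [sq_nonneg (p 0 - q 0)]

lemma lam_packing : IsPacking Lam := by
  rintro p (hp | hp) q (hq | hq) hne
  · exact dist_of_D9 (D9_trans hp (D9_symm hq)) hne
  · rw [dist_comm]
    refine dist_of_glue ?_
    have := D9_sub hq hp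
    rwa [show q - glue - (p - 0) = q - p - glue by abel] at this
  · refine dist_of_glue ?_
    have := D9_sub hp hq
    rwa [show p - glue - (q - 0) = p - q - glue by abel] at this
  · exact dist_of_D9 (D9_trans hp (D9_symm hq)) hne

lemma lam_inv : D8Invariant Lam := by
  rintro p (hp | hp) v hv
  · exact Or.inl (by rw [add_sub_right_comm]; exact D9_add hp hv.1)
  · exact Or.inr (by rw [add_sub_right_comm]; exact D9_add hp hv.1)

lemma lam_diamond : Diamond Lam := by
  refine ⟨0, glue, ?_, rfl⟩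
  rintro ⟨n, hn, -⟩
  have a := hn 1
  simp only [zero_sub, PiLp.neg_apply, glue] at a
  have h1 : ((2 * n 1 : ℤ) : ℝ) = ((-1 : ℤ) : ℝ) := by
    push_cast
    rw [← a]
    norm_num
  have := Int.cast_injective h1
  omega

theorem greatest :
    IsGreatest (centreDensity '' {P | IsPacking P ∧ D8Invariant P}) ((2 : ℝ) ^ (-(9 / 2) : ℝ)) := by
  refine ⟨⟨Lam, ⟨lam_packing, lam_inv⟩, ?_⟩, ?_⟩
  · unfold centreDensity
    rw [radius_pow, density_of_full lam_packing lam_inv (full_of_diamond lam_diamond), mul_one]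
  · rintro _ ⟨P, ⟨hP, hI⟩, rfl⟩
    exact (main hP hI).1

end Pool.Agent.P.MP_926215_co
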